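import Pool.Agent.W2helper63.LL.Stm

/-!
# Piece TRIV of project LL
-/

set_option autoImplicit false

noncomputable section

namespace Pool.Agent.W2helper10.LL

open Pool.Agent.W2helper63.LL IsDedekindDomain Polynomial Matrix WithZero
open scoped Classical

lemma v_inf (x : K) : Valued.v (algebraMap K Kinf x) = RatFunc.inftyValuation (ZMod 2) x :=
  @Valued.valuedCompletion_apply _ _ _ _ (RatFunc.inftyValued (ZMod 2)) x

lemma v_fin (v : Pl) (x : K) : Valued.v (ev v (algebraMap K Af x)) = v.valuation K x :=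
  HeightOneSpectrum.valuedAdicCompletion_eq_valuation' v x

lemma v_pinf : Valued.v (pinf : Kinf) = exp (-1 : ℤ) := by
  have h1 : (pinf : Kinf) = (algebraMap K Kinf RatFunc.X)⁻¹ := by
    unfold pinf Tu
    simp
  rw [h1, map_inv₀, v_inf, RatFunc.inftyValuation.X]
  rfl

/-- `(bor p 0 p)^n` is scalar -/
lemma bor_zpow {L : Type} [Field L] (p : Lˣ) (n : ℤ) :
    (bor p 0 p) ^ n = bor (p ^ n) 0 (p ^ n) := by
  let f : Lˣ →* GL (Fin 2) L :=
    { toFun := fun p => bor p 0 p
      map_one' := by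
        ext i j
        fin_cases i <;> fin_cases j <;> simp [bor]
      map_mul' := fun a b => by
        ext i j
        fin_cases i <;> fin_cases j <;> simp [bor, Matrix.mul_apply, Fin.sum_univ_two] }
  exact (map_zpow f p n).symm

lemma bor_mul {L : Type} [Field L] (p : Lˣ) (g : GL (Fin 2) L) (i j : Fin 2) :
    (g * bor p 0 p).1 i j = g.1 i j * p := by
  fin_cases i <;> fin_cases j <;> simp [bor, Matrix.mul_apply, Fin.sum_univ_two]

lemma bor_inv {L : Type} [Field L] (p : Lˣ) : (bor p 0 p)⁻¹ = bor p⁻¹ 0 p⁻¹ := by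
  have := bor_zpow p (-1)
  simpa using this

theorem triv : S_TRIV := by
  intro γ n ⟨hfin, hinf, h0, h1⟩
  -- components
  have hpr : ∀ (v : Pl) (i j : Fin 2), (pr v (dg γ * zz ^ n)).1 i j =
      ev v (algebraMap K Af (γ.1 i j)) := by
    intro v i j
    have e : (dg γ * zz ^ n).1 = GeneralLinearGroup.map (algebraMap K Af) γ := by
      show (dg γ).1 * (zz ^ n).1 = _
      rw [Prod.pow_fst]
      show (dg γ).1 * (1 : GL (Fin 2) Af) ^ n = _
      rw [_root_.one_zpow, mul_one]
      rfl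
    unfold pr
    rw [e]
    rfl
  have hpr' : ∀ (v : Pl) (i j : Fin 2), (pr v (dg γ * zz ^ n))⁻¹.1 i j =
      ev v (algebraMap K Af (γ⁻¹.1 i j)) := by
    intro v i j
    have e : (dg γ * zz ^ n).1 = GeneralLinearGroup.map (algebraMap K Af) γ := by
      show (dg γ).1 * (zz ^ n).1 = _
      rw [Prod.pow_fst]
      show (dg γ).1 * (1 : GL (Fin 2) Af) ^ n = _
      rw [_root_.one_zpow, mul_one]
      rfl
    unfold pr
    rw [e, ← map_inv, ← map_inv]
    rfl
  have hinfe : (dg γ * zz ^ n).2 =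
      GeneralLinearGroup.map (algebraMap K Kinf) γ * bor (pinf ^ n) 0 (pinf ^ n) := by
    show (dg γ).2 * (zz ^ n).2 = _
    rw [Prod.pow_snd, ← bor_zpow]
    rfl
  -- polynomials
  have hP : ∀ i j, ∃ P : R, algebraMap R K P = γ.1 i j := fun i j =>
    HeightOneSpectrum.mem_integers_of_valuation_le_one K _ fun v => by
      have := (hfin v i j).1
      rw [hpr, v_fin] at this
      exact this
  have hQ : ∀ i j, ∃ P : R, algebraMap R K P = γ⁻¹.1 i j := fun i j =>
    HeightOneSpectrum.mem_integers_of_valuation_le_one K _ fun v => by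
      have := (hfin v i j).2
      rw [hpr', v_fin] at this
      exact this
  choose P hP using hP
  choose Q hQ using hQ
  have hinj : Function.Injective (algebraMap R K) := IsFractionRing.injective R K
  have hPQ : (Matrix.of P : Matrix (Fin 2) (Fin 2) R) * Matrix.of Q = 1 := by
    have h2 : γ.1 * γ⁻¹.1 = 1 := by rw [← Units.val_mul, mul_inv_cancel]; rfl
    refine Matrix.map_injective hinj ?_
    beta_reduce
    rw [Matrix.map_mul]
    have e1 : (Matrix.of P : Matrix (Fin 2) (Fin 2) R).map (algebraMap R K) = γ.1 := by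
      ext i j; exact hP i j
    have e2 : (Matrix.of Q : Matrix (Fin 2) (Fin 2) R).map (algebraMap R K) = γ⁻¹.1 := by
      ext i j; exact hQ i j
    rw [e1, e2, h2]
    simp
  have hdet : (Matrix.of P).det = 1 := by
    have h3 : (Matrix.of P).det * (Matrix.of Q).det = 1 := by
      rw [← Matrix.det_mul, hPQ, Matrix.det_one]
    obtain ⟨a, ha, hC⟩ := Polynomial.isUnit_iff.1 (IsUnit.of_mul_eq_one _ h3)
    rw [← hC]
    have : a = 1 := by
      have h4 := ha.ne_zero
      revert h4
      generalize a = b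
      revert b
      decide
    rw [this, map_one]
  have hdet' : γ.1 0 0 * γ.1 1 1 - γ.1 0 1 * γ.1 1 0 = 1 := by
    rw [Matrix.det_fin_two] at hdet
    have := congrArg (algebraMap R K) hdet
    simpa [hP] using this
  have hdet2 : γ⁻¹.1 0 0 * γ⁻¹.1 1 1 - γ⁻¹.1 0 1 * γ⁻¹.1 1 0 = 1 := by
    have h2 : γ.1.det * γ⁻¹.1.det = 1 := by
      rw [← Matrix.det_mul, ← Units.val_mul, mul_inv_cancel]
      exact Matrix.det_one
    rw [Matrix.det_fin_two, hdet', one_mul, Matrix.det_fin_two] at h2
    exact h2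
  -- valuation of determinants
  have hvd : ∀ a b c d : Kinf, Valued.v a ≤ 1 → Valued.v b ≤ 1 → Valued.v c ≤ 1 →
      Valued.v d ≤ 1 → Valued.v (a * d - b * c) ≤ 1 := by
    intro a b c d ha hb hc hd
    refine (Valuation.map_sub _ _ _).trans (max_le ?_ ?_)
    · rw [map_mul]; exact mul_le_one' ha hd
    · rw [map_mul]; exact mul_le_one' hb hc
  have hpn : Valued.v ((pinf ^ n : Kinfˣ) : Kinf) = exp (-n) := by
    rw [Units.val_zpow_eq_zpow_val, map_zpow₀, v_pinf, ← WithZero.exp_zsmul]
    simp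
  have hent : ∀ i j, (dg γ * zz ^ n).2.1 i j = algebraMap K Kinf (γ.1 i j) *
      ((pinf ^ n : Kinfˣ) : Kinf) := by
    intro i j
    rw [hinfe, bor_mul]
    rfl
  have hent' : ∀ i j, (dg γ * zz ^ n).2⁻¹.1 i j = algebraMap K Kinf (γ⁻¹.1 i j) *
      (((pinf ^ n)⁻¹ : Kinfˣ) : Kinf) := by
    intro i j
    have hc : (bor (pinf ^ n) 0 (pinf ^ n))⁻¹ * (GeneralLinearGroup.map (algebraMap K Kinf) γ)⁻¹ =
        GeneralLinearGroup.map (algebraMap K Kinf) γ⁻¹ * bor (pinf ^ n)⁻¹ 0 (pinf ^ n)⁻¹ := by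
      rw [bor_inv, ← map_inv]
      ext i j
      fin_cases i <;> fin_cases j <;>
        simp [bor, Matrix.mul_apply, Fin.sum_univ_two, mul_comm]
    rw [hinfe, _root_.mul_inv_rev, hc, bor_mul]
    rfl
  have hn0 : n = 0 := by
    have h3 := hvd _ _ _ _ (hinf 0 0).1 (hinf 0 1).1 (hinf 1 0).1 (hinf 1 1).1
    have h4 := hvd _ _ _ _ (hinf 0 0).2 (hinf 0 1).2 (hinf 1 0).2 (hinf 1 1).2
    rw [hent, hent, hent, hent] at h3
    rw [hent', hent', hent', hent'] at h4
    have e3 : ∀ a b c d p : Kinf, a * p * (d * p) - b * p * (c * p) = (a * d - b * c) * (p * p) := by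
      intro a b c d p; ring
    rw [e3, ← map_mul, ← map_mul, ← map_sub, hdet', map_one, one_mul, map_mul, hpn, ← exp_add] at h3
    rw [e3, ← map_mul, ← map_mul, ← map_sub, hdet2, map_one, one_mul, map_mul,
      Units.val_inv_eq_inv_val, map_inv₀, hpn, ← WithZero.exp_neg, ← exp_add] at h4
    rw [← exp_zero, exp_le_exp] at h3 h4
    omega
  refine ⟨?_, hn0⟩
  subst hn0
  -- constants
  have hc : ∀ i j, ∃ a : ZMod 2, P i j = C a := by
    intro i j
    have h3 := (hinf i j).1
    rw [hent, zpow_zero, Units.val_one, mul_one, v_inf, ← hP] at h3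
    by_cases h4 : P i j = 0
    · exact ⟨0, by rw [h4, map_zero]⟩
    · rw [RatFunc.inftyValuation_apply, RatFunc.inftyValuation.polynomial _ h4, ← exp_zero,
        exp_le_exp] at h3
      exact ⟨_, Polynomial.eq_C_of_natDegree_eq_zero (by omega)⟩
  choose a ha using hc
  have h01 : a 0 1 = 0 := by
    rw [hpr, v_fin, ← hP, HeightOneSpectrum.valuation_lt_one_iff_mem] at h0
    have h5 : (X : R) ∣ C (a 0 1) := by
      rw [← ha]
      exact Ideal.mem_span_singleton.1 h0
    rwa [Polynomial.X_dvd_iff, Polynomial.coeff_C_zero] at h5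
  have h10 : a 1 0 = 0 := by
    by_contra h5
    rw [hent, zpow_zero, Units.val_one, mul_one, v_inf, ← hP, ha] at h1
    rw [RatFunc.inftyValuation_apply, RatFunc.inftyValuation.polynomial _ (by simpa using h5)] at h1
    simp at h1
  have h6 : a 0 0 * a 1 1 = 1 := by
    rw [Matrix.det_fin_two] at hdet
    simp only [Matrix.of_apply, ha, h01, h10, map_zero, mul_zero, sub_zero] at hdet
    rw [← C_mul] at hdet
    exact C_injective (by rw [hdet, map_one])
  have h7 : a 0 0 = 1 ∧ a 1 1 = 1 := by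
    revert h6
    generalize a 0 0 = x
    generalize a 1 1 = y
    revert x y
    decide
  ext i j
  rw [← hP, ha]
  fin_cases i <;> fin_cases j <;> simp [h01, h10, h7.1, h7.2]

end Pool.Agent.W2helper10.LL
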